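import Pool.Agent.J4H12.PZ.Stm

/-!
# Project PZ: sections as integrals (GAU)
-/

set_option autoImplicit false

open MeasureTheory Set Filter Topology Metric
open scoped Pointwise RealInnerProductSpace ENNReal

namespace Pool.Agent.J4H19.PZ

open Pool.Agent.H638.IB Pool.Agent.J4H12.PZ

theorem mk_t_zero_inner {L : ℕ} (t : ℝ) (z : E (L + 1)) :
    (⟪mk t (0 : E L), z⟫ : ℝ) = t * z 0 := by
  obtain ⟨s, w, rfl⟩ := exists_mk z
  rw [inner_mk, inner_zero_left, mk_zero_apply, add_zero]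

theorem G_smul {L : ℕ} (c : ℝ) (x : E (L + 3)) : G (c • x) = c ^ 2 * G x := by
  unfold G
  have h0 : (c • x) 0 = c * x 0 := rfl
  have h1 : (c • x) 1 = c * x 1 := rfl
  have h2 : (c • x) 2 = c * x 2 := rfl
  rw [h0, h1, h2, mul_max_of_nonneg _ _ (sq_nonneg c), mul_max_of_nonneg _ _ (sq_nonneg c),
    mul_zero]
  congr 2 <;> ring

theorem G_nonneg {L : ℕ} (x : E (L + 3)) : 0 ≤ G x := le_max_left _ _

theorem G_X {L : ℕ} (p t : ℝ) (q : ℝ × E (L + 1)) : G (X p t q) = g p t q := by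
  have h0 : (X p t q) 0 = -(p * q.1 + t * q.2 0) := rfl
  have h1 : (X p t q) 1 = q.1 := rfl
  have h2 : (X p t q) 2 = q.2 0 := rfl
  unfold G g
  rw [h0, h1, h2]
  congr 2
  ring

theorem X_add {L : ℕ} (p t : ℝ) (q q' : ℝ × E (L + 1)) :
    X p t (q + q') = X p t q + X p t q' := by
  unfold X
  rw [mk_add, mk_add]
  congr 1
  have : (q + q').2 0 = q.2 0 + q'.2 0 := rfl
  rw [this, Prod.fst_add]
  ring

theorem X_smul {L : ℕ} (p t c : ℝ) (q : ℝ × E (L + 1)) :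
    X p t (c • q) = c • X p t q := by
  unfold X
  rw [smul_mk, smul_mk]
  congr 1
  have : (c • q).2 0 = c * q.2 0 := rfl
  rw [this, Prod.smul_fst, smul_eq_mul]
  ring

theorem X_eq_zero {L : ℕ} {p t : ℝ} {q : ℝ × E (L + 1)} (h : X p t q = 0) : q = 0 := by
  unfold X at h
  rw [← mk_zero_zero, ← mk_zero_zero, mk_inj, mk_inj] at h
  exact Prod.ext h.2.1 h.2.2

/-- the gauge of the body -/
theorem gauge_sq (hGB : S_GB) {L : ℕ} {N N1 N2 : E (L + 3) → ℝ} {δ C κ : ℝ}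
    (hN : Nice N N1 N2 δ C) (hκ : 0 ≤ κ) (hK : Body (Kb N κ)) (x : E (L + 3)) :
    gauge (Kb N κ) x ^ 2 = N x + κ * G x := by
  obtain ⟨-, h1, h2, h3, -⟩ := hGB _ hK
  set H : E (L + 3) → ℝ := fun x => N x + κ * G x with hH
  have hH0 : ∀ x, 0 ≤ H x := by
    intro x
    have h4 := hN.lower x
    have h5 : 0 ≤ δ * ‖x‖ ^ 2 := mul_nonneg hN.pos.le (sq_nonneg _)
    have h6 := mul_nonneg hκ (G_nonneg x)
    simp only [hH]
    linarith
  have hHs : ∀ (c : ℝ) x, H (c • x) = c ^ 2 * H x := by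
    intro c x
    simp only [hH]
    rw [hN.hom, G_smul]
    ring
  have hg0 : ∀ x, 0 ≤ gauge (Kb N κ) x := fun x => gauge_nonneg x
  have hle : ∀ (s : ℝ), 0 < s → (gauge (Kb N κ) x ≤ s ↔ H x ≤ s ^ 2) := by
    intro s hs
    have h7 : gauge (Kb N κ) (s⁻¹ • x) = s⁻¹ * gauge (Kb N κ) x := by
      rw [h3, abs_of_pos (inv_pos.2 hs)]
    have h8 := h1 (s⁻¹ • x)
    rw [h7] at h8
    have h9 : s⁻¹ • x ∈ Kb N κ ↔ H (s⁻¹ • x) ≤ 1 := Iff.rfl
    rw [h9, hHs] at h8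
    rw [inv_mul_le_iff₀ hs, mul_one] at h8
    rw [h8, inv_pow, inv_mul_le_iff₀ (by positivity), mul_one]
  have hH' : N x + κ * G x = H x := rfl
  rw [hH']
  apply le_antisymm
  · apply le_of_forall_pos_le_add
    intro ε hε
    have h4 : gauge (Kb N κ) x ≤ Real.sqrt (H x + ε) := by
      rw [hle _ (Real.sqrt_pos.2 (by linarith [hH0 x])), Real.sq_sqrt (by linarith [hH0 x])]
      linarith
    calc gauge (Kb N κ) x ^ 2 ≤ (Real.sqrt (H x + ε)) ^ 2 := pow_le_pow_left₀ (hg0 x) h4 2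
      _ = H x + ε := Real.sq_sqrt (by linarith [hH0 x])
  · apply le_of_forall_pos_le_add
    intro ε hε
    have h4 : 0 < gauge (Kb N κ) x ^ 2 + ε := by positivity
    have h5 := (hle (Real.sqrt (gauge (Kb N κ) x ^ 2 + ε)) (Real.sqrt_pos.2 h4)).1 (by
      apply Real.le_sqrt_of_sq_le
      linarith)
    rwa [Real.sq_sqrt h4.le] at h5

theorem t_GAU : S_BODY → S_HSEC → S_MP → S_GB → S_GAU := by
  intro hBODY hHSEC hMP hGB L
  have hΓ : 0 < Real.Gamma ((Module.finrank ℝ (ℝ × E (L + 1)) : ℝ) / 2 + 1) :=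
    Real.Gamma_pos_of_pos (by positivity)
  refine ⟨(Real.Gamma ((Module.finrank ℝ (ℝ × E (L + 1)) : ℝ) / 2 + 1))⁻¹, inv_pos.2 hΓ, ?_⟩
  intro N N1 N2 δ C hN κ hκ0 hκ1 p t
  have hK : Body (Kb N κ) := hBODY L N N1 N2 δ C hN κ hκ0 hκ1
  obtain ⟨-, g1, g2, g3, g4, g5, -, -, g6⟩ := hGB _ hK
  rw [hHSEC (Kb N κ) hK (mk p (mk t 0))]
  set gg : ℝ × E (L + 1) → ℝ := fun q => gauge (Kb N κ) (X p t q) with hgg
  have hX : ∀ q : ℝ × E (L + 1),
      mk (-⟪mk p (mk t (0 : E L)), mk q.1 q.2⟫) (mk q.1 q.2) = X p t q := by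
    intro q
    rw [inner_mk, mk_t_zero_inner]
    rfl
  have hcont : Continuous fun y : E (L + 2) => mk (-⟪mk p (mk t (0 : E L)), y⟫) y := by
    have h1 : Continuous fun y : E (L + 2) => ((-⟪mk p (mk t (0 : E L)), y⟫ : ℝ), y) :=
      ((continuous_const.inner continuous_id).neg).prodMk continuous_id
    exact continuous_mk.comp h1
  have hS : MeasurableSet {y : E (L + 2) | mk (-⟪mk p (mk t (0 : E L)), y⟫) y ∈ Kb N κ} :=
    hcont.measurable g6
  have h1 := (hMP (L + 1)).measure_preimage hS.nullMeasurableSet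
  have h2 : ((fun q : ℝ × E (L + 1) => mk q.1 q.2) ⁻¹'
      {y : E (L + 2) | mk (-⟪mk p (mk t (0 : E L)), y⟫) y ∈ Kb N κ}) = {q | gg q ≤ 1} := by
    ext q
    simp only [mem_preimage, mem_setOf_eq, hgg]
    rw [hX q, g1]
  rw [h2] at h1
  have hgg0 : gg 0 = 0 := by
    have h3 := X_smul p t 0 (0 : ℝ × E (L + 1))
    rw [zero_smul, zero_smul] at h3
    simp only [hgg]
    rw [h3, gauge_zero]
  have hggn : ∀ q, gg (-q) = gg q := by
    intro q
    have h3 := X_smul p t (-1) q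
    rw [neg_one_smul, neg_one_smul] at h3
    simp only [hgg]
    have h4 := g3 (-1) (X p t q)
    rw [neg_one_smul, abs_neg, abs_one, one_mul] at h4
    rw [h3, h4]
  have hgga : ∀ q q', gg (q + q') ≤ gg q + gg q' := by
    intro q q'
    simp only [hgg]
    rw [X_add]
    exact g4 _ _
  have hggz : ∀ {q}, gg q = 0 → q = 0 := by
    intro q hq
    by_contra hne
    have h3 : X p t q ≠ 0 := fun h => hne (X_eq_zero h)
    exact absurd hq (g2 _ h3).ne'
  have hggs : ∀ (r : ℝ) q, gg (r • q) ≤ |r| * gg q := by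
    intro r q
    simp only [hgg]
    rw [X_smul, g3]
  haveI hHaar : (volume : Measure (ℝ × E (L + 1))).IsAddHaarMeasure :=
    inferInstanceAs (((volume : Measure ℝ).prod (volume : Measure (E (L + 1)))).IsAddHaarMeasure)
  have h3 := MeasureTheory.measure_lt_one_eq_integral_div_gamma
    (volume : Measure (ℝ × E (L + 1))) (g := gg) hgg0 hggn hgga hggz hggs
    (p := 2) (by norm_num)
  have h4 := MeasureTheory.measure_le_eq_lt (volume : Measure (ℝ × E (L + 1))) (g := gg) hgg0 hggn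
    hgga hggz hggs 1
  have h5 : (volume : Measure (E (L + 2)))
      {y : E (L + 2) | mk (-⟪mk p (mk t (0 : E L)), y⟫) y ∈ Kb N κ} =
      ENNReal.ofReal ((∫ q : ℝ × E (L + 1), Real.exp (-(gg q) ^ (2 : ℝ))) /
        Real.Gamma ((Module.finrank ℝ (ℝ × E (L + 1)) : ℝ) / 2 + 1)) := by
    rw [← h1, ← h3]
    exact h4
  rw [h5]
  have h6 : ∀ q : ℝ × E (L + 1), Real.exp (-(gg q) ^ (2 : ℝ)) = ee N κ p t q := by
    intro q
    unfold ee
    congr 1
    have h7 := gauge_sq hGB hN hκ0 hK (X p t q)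
    rw [G_X] at h7
    rw [Real.rpow_two]
    simp only [hgg]
    linarith
  simp_rw [h6]
  rw [ENNReal.toReal_ofReal]
  · unfold AA
    rw [div_eq_inv_mul]
  · apply div_nonneg _ hΓ.le
    apply integral_nonneg
    intro q
    exact (Real.exp_pos _).le

end Pool.Agent.J4H19.PZ
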